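import Pool.Agent.Helper576.DF.Core
import Pool.Agent.H541R3.ART.Irr

/-!
# The order of a pole of a quotient of Dedekind zeta functions and fixed points

Let `U ≤ M` be subgroups of `G = Gal(E/K)`, `F = E^M`, `L = E^U`, and let `r`, `a`, `b` be the orders at `s₀`
of the zeta functions of `E`, `F`, `L` (more generally of the `L`-functions of a linear character `ρ` of `M`
and of its restriction to `U`). Then `a - b`, the order of the pole of `ζ_L/ζ_F`, is bounded by `r` times a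
constant smaller than `1` which depends on the permutation group `M` on `M/U`: for every real `f ≥ 1` it is at
most `r (1 - 1/f)`, plus a term for the elements with more than `f` fixed points. The case `f = R`, where `R` is the
number of the orbits of `U` on `M/U`, gives `r (1 - 1/(2R - 1))`, for example `2r/3` if `M` is 2-transitive.
-/

set_option autoImplicit false
set_option linter.unusedSectionVars false

namespace Pool.Agent.Results.MP_9fc8a5_nt.FixedPointBound

open Pool.Agent.H302R2 Pool.Agent.H541R3.ART Pool.Agent.Helper576.DF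

variable {G : Type} [Group G] [Finite G] {s₀ : ℂ}

lemma norm_val {H : Type} [Group H] [Finite H] (ρ : H →* ℂˣ) (h : H) : ‖((ρ h : ℂˣ) : ℂ)‖ = 1 := by
  have h1 : (((ρ h : ℂˣ) : ℂ)) ^ Nat.card H = 1 := by
    rw [← Units.val_pow_eq_pow_val, ← map_pow, pow_card_eq_one', map_one, Units.val_one]
  exact Complex.norm_eq_one_of_pow_eq_one h1 Nat.card_pos.ne'

/-- the order of `Lin H ψ` is the multiplicity of `ψ` in the Heilbronn function -/
lemma order_spec (A : ArtinData G s₀) (H : Subgroup G) (ψ : H →* ℂˣ) :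
    ∃ k : ℕ, meromorphicOrderAt (A.Lin H ψ) s₀ = (k : WithTop ℤ) ∧
      ∑ᶠ h : H, (theta A.ord : G → ℂ) h * (((ψ h)⁻¹ : ℂˣ) : ℂ) = (k : ℂ) * (Nat.card H : ℂ) := by
  classical
  choose! m hm using fun χ (hχ : χ ∈ Irr G) => exists_mult hχ H ψ
  have h1 := A.order_Lin H ψ m hm
  have h2 := theta_mult A.ord H ψ m hm
  have h0 := A.hecke H ψ
  rw [h1] at h0
  have h3 : 0 ≤ ∑ χ ∈ irrF G, (m χ : ℤ) * A.ord χ := by exact_mod_cast h0
  obtain ⟨k, hk⟩ := Int.eq_ofNat_of_zero_le h3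
  refine ⟨k, ?_, ?_⟩
  · rw [h1, hk]
    rfl
  · rw [h2, hk]
    push_cast
    ring

/-- The order of the pole of `ζ_L/ζ_F` at `s₀`, for `F = E^M` and `L = E^U`. -/
theorem result (A : ArtinData G s₀) {r : ℕ}
    (hr : meromorphicOrderAt (A.Lin ⊥ 1) s₀ = (r : WithTop ℤ))
    {U M : Subgroup G} (hUM : U ≤ M) (ρ : M →* ℂˣ) :
    ∃ a b : ℕ,
      meromorphicOrderAt (A.Lin M ρ) s₀ = (a : WithTop ℤ) ∧
      meromorphicOrderAt (A.Lin U (ρ.comp (Subgroup.inclusion hUM))) s₀ = (b : WithTop ℤ) ∧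
      (∀ f : ℝ, 1 ≤ f →
        (a : ℝ) - b ≤ r * (1 - 1 / f
          + 2 * (∑ᶠ g : {g : M // g ≠ 1}, max 0 (fix (U.subgroupOf M) (g : M) / f - 1))
            / Nat.card M)) ∧
      (a : ℝ) - b ≤ (1 - 1 / (2 * (rank (U.subgroupOf M) : ℝ) - 1)) * r := by
  classical
  obtain ⟨a, ha, ha'⟩ := order_spec A M ρ
  obtain ⟨b, hb, hb'⟩ := order_spec A U (ρ.comp (Subgroup.inclusion hUM))
  have : Fintype M := Fintype.ofFinite _
  have : Fintype U := Fintype.ofFinite _
  have : Fintype (U.subgroupOf M) := Fintype.ofFinite _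
  have hH := A.isHeilbronn
  have h1 := A.theta_one hr
  set θ : G → ℂ := theta A.ord with hθ
  let F : M → ℝ := fun g => (θ g * (((ρ g)⁻¹ : ℂˣ) : ℂ)).re
  have hF : ∀ g k : M, F (k * g * k⁻¹) = F g := by
    intro g k
    have e1 : θ ((k * g * k⁻¹ : M) : G) = θ g := hH.conj g k
    have e2 : ρ (k * g * k⁻¹) = ρ g := by
      rw [map_mul, map_mul, map_inv, mul_comm (ρ k) (ρ g), mul_inv_cancel_right]
    simp only [F, e1, e2]
  have hF1 : F 1 = r := by
    simp only [F, OneMemClass.coe_one, h1, map_one, inv_one, Units.val_one, mul_one,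
      Complex.natCast_re]
  have hFr : ∀ g, |F g| ≤ (r : ℝ) := by
    intro g
    refine (Complex.abs_re_le_norm _).trans ?_
    rw [norm_mul]
    have e1 := hH.norm_le (g : G)
    rw [h1, Complex.natCast_re] at e1
    have e2 : ‖(((ρ g)⁻¹ : ℂˣ) : ℂ)‖ = 1 := by
      rw [← map_inv]
      exact norm_val ρ g⁻¹
    rw [e2, mul_one]
    exact e1
  have hFa : ∑ g, F g = (a : ℝ) * Fintype.card M := by
    rw [finsum_eq_sum_of_fintype] at ha'
    have := congrArg Complex.re ha'
    rw [Complex.re_sum] at this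
    rw [this, Nat.card_eq_fintype_card]
    have e : ((a : ℂ) * ((Fintype.card M : ℕ) : ℂ)) = (((a : ℝ) * Fintype.card M : ℝ) : ℂ) := by
      push_cast
      rfl
    rw [e, Complex.ofReal_re]
  have hFb : ∑ v : U.subgroupOf M, F v = (b : ℝ) * Fintype.card (U.subgroupOf M) := by
    rw [finsum_eq_sum_of_fintype] at hb'
    have e0 : ∑ v : U.subgroupOf M, F v
        = ∑ u : U, (θ u * ((((ρ.comp (Subgroup.inclusion hUM)) u)⁻¹ : ℂˣ) : ℂ)).re := by
      refine Fintype.sum_equiv (Subgroup.subgroupOfEquivOfLe hUM).toEquiv _ _ fun v => ?_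
      rfl
    have := congrArg Complex.re hb'
    rw [Complex.re_sum] at this
    rw [e0, this]
    have e1 : Nat.card U = Fintype.card (U.subgroupOf M) := by
      rw [← Nat.card_eq_fintype_card]
      exact (Nat.card_congr (Subgroup.subgroupOfEquivOfLe hUM).toEquiv).symm
    rw [e1]
    have e : ((b : ℂ) * ((Fintype.card (U.subgroupOf M) : ℕ) : ℂ))
        = (((b : ℝ) * Fintype.card (U.subgroupOf M) : ℝ) : ℂ) := by
      push_cast
      rfl
    rw [e, Complex.ofReal_re]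
  have hb0 : (0 : ℝ) ≤ b := Nat.cast_nonneg b
  refine ⟨a, b, ha, hb, fun f hf => ?_, core_rank_int _ F hF hb0 hF1 hFr hFa hFb⟩
  rw [Nat.card_eq_fintype_card]
  exact core_excess _ F hF hb0 hF1 hFr hFa hFb hf

/-- at most `f` fixed points -/
theorem fixity (A : ArtinData G s₀) {r : ℕ}
    (hr : meromorphicOrderAt (A.Lin ⊥ 1) s₀ = (r : WithTop ℤ))
    {U M : Subgroup G} (hUM : U ≤ M) (ρ : M →* ℂˣ)
    {f : ℕ} (hf0 : 1 ≤ f) (hf : ∀ g : M, g ≠ 1 → fix (U.subgroupOf M) g ≤ f) :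
    ∃ a b : ℕ,
      meromorphicOrderAt (A.Lin M ρ) s₀ = (a : WithTop ℤ) ∧
      meromorphicOrderAt (A.Lin U (ρ.comp (Subgroup.inclusion hUM))) s₀ = (b : WithTop ℤ) ∧
      (a : ℝ) - b ≤ (1 - 1 / (f : ℝ)) * r := by
  obtain ⟨a, b, ha, hb, h, -⟩ := result A hr hUM ρ
  refine ⟨a, b, ha, hb, ?_⟩
  have hf1 : (1 : ℝ) ≤ f := by exact_mod_cast hf0
  have h1 := h f hf1
  have h2 : ∀ g : {g : M // g ≠ 1}, max 0 ((fix (U.subgroupOf M) (g : M) : ℝ) / f - 1) = 0 := by
    intro g
    apply max_eq_left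
    have h3 : (fix (U.subgroupOf M) (g : M) : ℝ) ≤ f := by exact_mod_cast hf g g.2
    have h4 : (fix (U.subgroupOf M) (g : M) : ℝ) / f ≤ 1 := by
      rw [div_le_one (by linarith)]
      exact h3
    linarith
  simp only [h2, finsum_zero, mul_zero, zero_div, add_zero] at h1
  linarith [mul_comm (r : ℝ) (1 - 1 / (f : ℝ))]

/-- the general bound in terms of the degree -/
theorem degree (A : ArtinData G s₀) {r : ℕ}
    (hr : meromorphicOrderAt (A.Lin ⊥ 1) s₀ = (r : WithTop ℤ))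
    {U M : Subgroup G} (hUM : U ≤ M) (ρ : M →* ℂˣ)
    (hc : (U.subgroupOf M).normalCore = ⊥) (h3 : 3 ≤ (U.subgroupOf M).index) :
    ∃ a b : ℕ,
      meromorphicOrderAt (A.Lin M ρ) s₀ = (a : WithTop ℤ) ∧
      meromorphicOrderAt (A.Lin U (ρ.comp (Subgroup.inclusion hUM))) s₀ = (b : WithTop ℤ) ∧
      (a : ℝ) - b ≤ (1 - 1 / (((U.subgroupOf M).index : ℝ) - 2)) * r := by
  obtain ⟨a, b, ha, hb, h⟩ := fixity A hr hUM ρ (f := (U.subgroupOf M).index - 2) (by omega)
    (fun g hg => by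
      have := fix_le_index _ hc hg
      omega)
  refine ⟨a, b, ha, hb, ?_⟩
  rw [Nat.cast_sub (by omega : 2 ≤ (U.subgroupOf M).index)] at h
  exact_mod_cast h

end Pool.Agent.Results.MP_9fc8a5_nt.FixedPointBound
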