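import Pool.Agent.Helper503_CP.Layers

/-!
# Quotients of Dedekind zeta functions at zeros of small order: layers with long orbits

`Pool.Agent.H541R3.ART.ArtinData G s₀` is a family of functions with the formal properties of the
Artin L-functions of a Galois extension `E/K` with group `G` near a point `s₀ ≠ 1`: functions
`L χ` for the irreducible characters `χ` of `G`, meromorphic and not identically zero near `s₀`
(Brauer), and `Lin H ψ` for the linear characters `ψ` of the subgroups `H`, without pole at `s₀`
(Artin reciprocity and Hecke), such that `Lin H ψ` is the product of the `L χ ^ ⟨χ|_H, ψ⟩`
(induction). In particular `Lin H 1` stands for the Dedekind zeta function of the fixed field of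
`H`.

`Pool.Agent.Helper503_CP.LayW r N`, for a subgroup `N` of a group `Q`: `N` is normal and generated by
the commutator subgroups of finitely many pairwise commuting subgroups `X i` of `Q` with weights
`μ i`, and the sum of the weights over every nonempty set of indices which is closed under
conjugation by `Q` is greater than `r`. Every group `X` has the weight two. The weight `μ` is allowed
for `X` (`Pool.Agent.Helper503_CP.Weight`) if `X` is a quotient of a finite group on the list
`FacO (μ - 1)` of the starting files (for example `SL_n(q)` with `q` odd and `3 ≤ μ ≤ n`, or the
alternating group `A_m` with `m ≥ 5` and `μ ≤ (2 ^ j - 1) ⌊m / 2 ^ j⌋` for some `j ≥ 2`), or if every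
Heilbronn function on `X` of degree less than `μ` is constant on the commutator subgroup of `X`. A
Heilbronn function is a class function whose restriction to every subgroup has a nonnegative integer
multiplicity against every linear character; its degree is its value at `1`.

For example, a nonabelian chief factor of `Q` which is the product of more than `r / 2` simple groups
has the property `LayW r`.

`Pool.Agent.Helper503_CP.BuiltW r N` says that the normal subgroup `N` of `G` is obtained from the
trivial subgroup by finitely many steps `M ≤ N` such that `N / M` has the property `LayW r` in
`G / M`, or `Pool.Agent.W295.Cl.Orb r`: `N / M` is abelian and every nontrivial linear character of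
`N / M` has more than `r` conjugates under `G / M`.

`Pool.Agent.Helper503_CP.BuiltSW r N` is the same with all abelian steps allowed: every step has the
property `LayW r` or has `N / M` abelian with `N` normal.
-/

set_option autoImplicit false

open Pool.Agent.H541R3.ART Pool.Agent.Helper503_CP

/-- Let `G` be the Galois group of `E/K`, let `r` be the order of `ζ_E` at `s₀`, let `N` be a normal
subgroup of `G` built as above (for example `N = 1`), and let `M` be a subgroup of `G` such that
`M / (M ∩ N)` is built from abelian steps and steps with the property `LayW r`. Then the order at
`s₀` of `ζ_F`, `F = E ^ M`, is at most the order of `ζ_L`, for all `L = E ^ U` with `F ⊆ L`; more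
generally for the L-functions of a linear character `ρ` of `M` over `F` and of `ρ|_U` over `L`. In
particular `ζ_L / ζ_F` has no pole at `s₀` as soon as every nonabelian chief factor of `M` is a
product of more than `r / 2` simple groups (for `r ≤ 3`: as soon as no chief factor of `M` is a
nonabelian simple group). -/
theorem Pool.Agent.Results.MP_9fc8a5_nt.OrbitLayers.result
    (G : Type) [Group G] [Finite G] (s₀ : ℂ) (A : ArtinData G s₀) (r : ℕ)
    (hr : meromorphicOrderAt (A.Lin ⊥ 1) s₀ = (r : WithTop ℤ)) (N : Subgroup G) [N.Normal]
    (hN : BuiltW r N) (U M : Subgroup G) (hUM : U ≤ M)
    (hM : BuiltSW r (⊤ : Subgroup (M ⧸ N.subgroupOf M))) (ρ : M →* ℂˣ) :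
    meromorphicOrderAt (A.Lin M ρ) s₀
      ≤ meromorphicOrderAt (A.Lin U (ρ.comp (Subgroup.inclusion hUM))) s₀ :=
  ded_builtW A hr N hN U M hUM hM ρ
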