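import Mathlib
import Pool.Agent.TH46.SOFinal

/-!
# Quotients of Dedekind zeta functions at zeros of small order: symplectic groups in odd
characteristic

`Pool.Agent.H541R3.ART.ArtinData G s₀` is a family of functions with the formal properties of the
Artin L-functions of a Galois extension `E/K` with group `G` near a point `s₀ ≠ 1`: functions
`L χ` for the irreducible characters `χ` of `G`, meromorphic and not identically zero near `s₀`
(Brauer), and `Lin H ψ` for the linear characters `ψ` of the subgroups `H`, without pole at `s₀`
(Artin reciprocity and Hecke), such that `Lin H ψ` is the product of the `L χ ^ ⟨χ|_H, ψ⟩`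
(induction). In particular `Lin H 1` stands for the Dedekind zeta function of the fixed field of
`H`.

`Pool.Agent.TH46.SO.SpOdd r S` says that `S` is the symplectic group `Sp_{2n}(q)` for `q` a power of
an odd prime `p` and `n ≥ 2`, with `2 r < q ^ n - 1` and `r < 2 n`, or with `2 r < q ^ n - 1` and
`p ≤ n`. (The smallest degree of a nontrivial character is `(q ^ n - 1) / 2`; the condition `p ≤ n`
does not depend on `r`.) The theorem behind this, `Pool.Agent.TH46.SO.sp_odd_rigid`, says that every
Heilbronn function of degree at most `r` on such a group is constant: a Heilbronn function is a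
class function whose restriction to every subgroup `H` has a nonnegative integer multiplicity
against every linear character of `H`, and its degree is its value at `1`.

`Pool.Agent.TH820.BuiltC r (SpOdd r) N` says that the normal subgroup `N` of `G` is obtained from the
trivial subgroup by finitely many steps `M ≤ N` of the following two kinds.
* `LayC`: `N / M` is a normal subgroup of `G / M` generated by finitely many pairwise commuting
  subgroups, each a homomorphic image of a finite group with the property `SpOdd r`. There is no
  condition on the action of `G` on these subgroups.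
* `Orb`: `N / M` is abelian and every nontrivial linear character of `N / M` has more than `r`
  conjugates under `G / M`.

`Pool.Agent.TH820.BuiltSC (SpOdd r) N` is the same with all abelian steps allowed: every step is of
the kind `LayC` or has `N / M` abelian with `N` normal.
-/

set_option autoImplicit false

open Pool.Agent.H541R3.ART

/-- Let `G` be the Galois group of `E/K`, let `r` be the order of `ζ_E` at `s₀`, let `N` be a normal
subgroup of `G` built as above (for example `N = 1`), and let `M` be a subgroup of `G` such that
`M / (M ∩ N)` is built from abelian groups and groups with `SpOdd r`, for example symplectic groups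
`Sp_{2n}(q)` or `PSp_{2n}(q)` with `q` odd and `r < 2 n`, `2 r < q ^ n - 1`. Then the order at `s₀`
of `ζ_F`, `F = E ^ M`, is at most the order of `ζ_L`, for all `L = E ^ U` with `F ⊆ L`: the quotient
`ζ_L / ζ_F` has no pole at `s₀`. More generally this holds for the L-functions of a linear character
`ρ` of `M` over `F` and of `ρ|_U` over `L`. -/
theorem Pool.Agent.Results.MP_9fc8a5_nt.SymplecticOdd.result
    (G : Type) [Group G] [Finite G] (s₀ : ℂ) (A : ArtinData G s₀) (r : ℕ)
    (hr : meromorphicOrderAt (A.Lin ⊥ 1) s₀ = (r : WithTop ℤ)) (N : Subgroup G) [N.Normal]
    (hN : Pool.Agent.TH820.BuiltC r (Pool.Agent.TH46.SO.SpOdd r) N) (U M : Subgroup G) (hUM : U ≤ M)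
    (hM : Pool.Agent.TH820.BuiltSC (Pool.Agent.TH46.SO.SpOdd r)
      (⊤ : Subgroup (M ⧸ N.subgroupOf M))) (ρ : M →* ℂˣ) :
    meromorphicOrderAt (A.Lin M ρ) s₀
      ≤ meromorphicOrderAt (A.Lin U (ρ.comp (Subgroup.inclusion hUM))) s₀ :=
  Pool.Agent.TH820.ded_large A hr N (hN.mono (fun _ _ _ hS => hS.facO)) U M hUM
    (hM.mono (fun _ _ _ hS => hS.facO)) ρ
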